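import Mathlib

namespace Pool.Agent.Results.MP_2db6a9_co.Disproof

open Classical

/-- A set algebra on `J`: a nonempty family closed under complements and finite unions. -/
structure SetAlgebra (J : Type) where
  sets : Set (Set J)
  empty_mem : ∅ ∈ sets
  compl_mem : ∀ X ∈ sets, Xᶜ ∈ sets
  union_mem : ∀ X ∈ sets, ∀ Y ∈ sets, X ∪ Y ∈ sets

variable {J : Type}

/-- Set functions are given as functions on all sets; only their values on `B.sets` matter. -/
def Increasing (B : SetAlgebra J) (f : Set J → ℝ) : Prop :=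
  ∀ X ∈ B.sets, ∀ Y ∈ B.sets, X ⊆ Y → f X ≤ f Y

def Bounded (B : SetAlgebra J) (f : Set J → ℝ) : Prop :=
  ∃ b : ℝ, ∀ X ∈ B.sets, |f X| ≤ b

def Submodular (B : SetAlgebra J) (f : Set J → ℝ) : Prop :=
  ∀ X ∈ B.sets, ∀ Y ∈ B.sets, f (X ∩ Y) + f (X ∪ Y) ≤ f X + f Y

def BoundedVariation (B : SetAlgebra J) (φ : Set J → ℝ) : Prop :=
  ∃ f g : Set J → ℝ, Increasing B f ∧ Increasing B g ∧ ∀ X ∈ B.sets, φ X = f X - g X

/-- The algebra of all subsets. -/
def full (J : Type) : SetAlgebra J := ⟨Set.univ, trivial, fun _ _ => trivial, fun _ _ _ _ => trivial⟩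

/-- `φ X = 1` when some row `m` of `X` contains `m + 1` consecutive integers, else `0`. -/
noncomputable def phi (X : Set (ℕ × ℤ)) : ℝ :=
  if ∃ (m : ℕ) (a : ℤ), ∀ t : ℤ, a ≤ t → t ≤ a + m → (m, t) ∈ X then 1 else 0

def box (m i j : ℕ) : Set (ℕ × ℤ) := {p | p.1 = m ∧ -(i : ℤ) ≤ p.2 ∧ p.2 < j}

lemma box_inter (m i j : ℕ) : box m (i + 1) j ∩ box m i (j + 1) = box m i j := by
  ext ⟨x, y⟩; simp only [box, Set.mem_inter_iff, Set.mem_ofPred_eq]; push_cast; omega

lemma box_union (m i j : ℕ) : box m (i + 1) j ∪ box m i (j + 1) = box m (i + 1) (j + 1) := by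
  ext ⟨x, y⟩; simp only [box, Set.mem_union, Set.mem_ofPred_eq]; push_cast; omega

lemma phi_box (m i j : ℕ) : phi (box m i j) = if m + 1 ≤ i + j then 1 else 0 := by
  unfold phi
  congr 1
  apply propext
  constructor
  · rintro ⟨k, a, h⟩
    have h1 := h a le_rfl (by omega)
    have h2 := h (a + k) (by omega) le_rfl
    simp only [box, Set.mem_ofPred_eq] at h1 h2
    omega
  · intro h
    refine ⟨m, -(i : ℤ), fun t h1 h2 => ?_⟩
    exact ⟨rfl, h1, by show t < (j : ℤ); omega⟩

lemma phi_inc : Increasing (full _) phi := by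
  intro X _ Y _ hXY
  unfold phi
  split_ifs with h1 h2
  · exact le_rfl
  · obtain ⟨m, a, h⟩ := h1
    exact absurd ⟨m, a, fun t u v => hXY (h t u v)⟩ h2
  · norm_num
  · exact le_rfl

lemma telescope (a : ℕ → ℕ → ℝ) (n : ℕ) :
    ∑ i ∈ Finset.range n, ∑ j ∈ Finset.range n,
      (a (i + 1) j + a i (j + 1) - a i j - a (i + 1) (j + 1)) = a n 0 + a 0 n - a 0 0 - a n n := by
  have h1 : ∀ i, ∑ j ∈ Finset.range n, (a (i + 1) j + a i (j + 1) - a i j - a (i + 1) (j + 1)) =
      (a (i + 1) 0 - a (i + 1) n) - (a i 0 - a i n) := fun i => by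
    have := Finset.sum_range_sub (fun j => a i j - a (i + 1) j) n
    rw [show (a (i + 1) 0 - a (i + 1) n) - (a i 0 - a i n) =
      a i n - a (i + 1) n - (a i 0 - a (i + 1) 0) by ring, ← this]
    exact Finset.sum_congr rfl fun j _ => by ring
  simp only [h1]
  rw [Finset.sum_range_sub (fun i => a i 0 - a i n) n]
  ring

/-- There are a set algebra and an increasing `{0,1}`-valued set function on it (so of bounded
variation) which is not a difference of two bounded submodular set functions. -/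
theorem result : ∃ (J : Type) (B : SetAlgebra J) (φ : Set J → ℝ),
    Increasing B φ ∧ BoundedVariation B φ ∧
    ¬ ∃ ψ₁ ψ₂ : Set J → ℝ, Bounded B ψ₁ ∧ Submodular B ψ₁ ∧ Bounded B ψ₂ ∧ Submodular B ψ₂ ∧
      ∀ X ∈ B.sets, φ X = ψ₁ X - ψ₂ X := by
  refine ⟨ℕ × ℤ, full _, phi, phi_inc,
    ⟨phi, fun _ => 0, phi_inc, fun _ _ _ _ _ => le_rfl, fun _ _ => by simp⟩, ?_⟩
  rintro ⟨ψ₁, ψ₂, ⟨b, hb⟩, hs1, -, hs2, he⟩
  obtain ⟨m, hm⟩ := exists_nat_gt (4 * b)
  set a : ℕ → ℕ → ℝ := fun i j => ψ₁ (box m i j) with ha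
  have hD : ∀ i j, (if i + j = m then (1 : ℝ) else 0) ≤
      a (i + 1) j + a i (j + 1) - a i j - a (i + 1) (j + 1) := fun i j => by
    have h1 := hs1 (box m (i + 1) j) trivial (box m i (j + 1)) trivial
    have h2 := hs2 (box m (i + 1) j) trivial (box m i (j + 1)) trivial
    rw [box_inter, box_union] at h1 h2
    simp only [ha]
    split_ifs with h
    · have e1 := he (box m (i + 1) j) trivial
      have e2 := he (box m i (j + 1)) trivial
      have e3 := he (box m i j) trivial
      have e4 := he (box m (i + 1) (j + 1)) trivial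
      rw [phi_box, if_pos (by omega)] at e1 e2 e4
      rw [phi_box, if_neg (by omega)] at e3
      linarith
    · linarith
  have hsum : ∑ i ∈ Finset.range (m + 1), ∑ j ∈ Finset.range (m + 1),
      (if i + j = m then (1 : ℝ) else 0) = m + 1 := by
    have : ∀ i ∈ Finset.range (m + 1), ∑ j ∈ Finset.range (m + 1),
        (if i + j = m then (1 : ℝ) else 0) = 1 := fun i hi => by
      have hi' := Finset.mem_range.1 hi
      rw [Finset.sum_eq_single (m - i)]
      · rw [if_pos (by omega)]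
      · intro j _ hj; rw [if_neg (by omega)]
      · intro hj; exact absurd (Finset.mem_range.2 (by omega)) hj
    rw [Finset.sum_congr rfl this]; simp
  have hle := Finset.sum_le_sum (s := Finset.range (m + 1)) fun i _ =>
    Finset.sum_le_sum (s := Finset.range (m + 1)) fun j _ => hD i j
  rw [hsum, telescope] at hle
  have b1 := abs_le.1 (hb (box m (m + 1) 0) trivial)
  have b2 := abs_le.1 (hb (box m 0 (m + 1)) trivial)
  have b3 := abs_le.1 (hb (box m 0 0) trivial)
  have b4 := abs_le.1 (hb (box m (m + 1) (m + 1)) trivial)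
  simp only [ha] at hle
  linarith [b1.2, b2.2, b3.1, b4.1]

end Pool.Agent.Results.MP_2db6a9_co.Disproof
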